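import Pool.Agent.helper748_mc.PenThm

set_option autoImplicit false

/-! # The motivic monodromy conjecture at the points `(P, 0)` of `∑ y_j f_j(x₀, x₁, x₂) = 0`, V

Here the `f_j` are forms of the same degree `d` in the three variables `x₀, x₁, x₂`, the `y_j` are
further variables, `F = univ f = ∑ y_j f_j(x₀, x₁, x₂)`, and `P` is a point of `ℂ ^ 3`. The local
motivic zeta function of `F` at `(P, 0)` (jets `φ` with `F(φ) = t^m + ...`) is computed by blowing
up points of the projective plane.

* For `P = 0` see `ConeJetLocalMot` and `ProjMot`.
* For `P ≠ 0`, say `P_i ≠ 0`: as `F = ∑ (y_j x_i ^ d) f_j(x / x_i)`, the germ of `F` at `(P, 0)` is,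
  in the coordinates `y_j x_i ^ d`, `x_i` and `x_k / x_i`, `k ≠ i`, the germ of
  `∑ y_j (f_j |_{x_i = 1})` at `(Q, 0)`, with `Q = (P_k / P_i)`, `k ≠ i`; see `JetFormMot`.

All denominators, except possibly those which belong to `-3/d`, are known to belong to roots of
`b_F`. We prove `b_F(-3/d) = 0` if some linear combination `g` of the `f_j` is in some linear
coordinates of the form `(h / r) L ^ j G(a L ^ k, b)`, `L = l x₂ + m`, with `h`, `r`, `a`, `b`, `l`,
`m` in `x₀`, `x₁`, and `G(u, v)` a form which is not divisible by `u` or `v` and has at least two
different linear factors, such that `h r a b l` has enough roots, counted as in `PencilForm`.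

Geometrically: the curve `g = 0` (with its multiplicities) is cut by the lines through some point
`(0 : 0 : 1)` in divisors of the affine lines (the lines minus that point) which are, apart from
finitely many lines, isomorphic to each other; `L = 0` passes through the fixed points, if there are
symmetries. If there are enough special lines, counted as in `PencilForm`, then `b(-3/d) = 0`.

The proof of `b(-3/d) = 0`, for a form `g` in the class (`g` is the linear combination):

* `ex_main`: a functional equation gives an identity
  `b(c) g ^ (K + 1) = ∑ (g ∂_i v_i(c) + (c - K) (∂_i g) v_i(c))` with forms `v_i(c)` of the degree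
  `d K + 1` which depend polynomially on `c`; so `b(c) g ^ c` is the divergence of `v(c) g ^ (c - K)`;
* `exact_two`: for `c = -3/d` this gives such an identity in the two variables `x₀`, `x₂`;
* `line_not_exact`, `exists_penSys`: with `W = a L ^ k / b` and `G(W, 1) = γ(W)`, the one-form
  `W ^ θ γ(W) ^ (-3/d) dW / W` is not the differential of a function
  `W ^ θ γ(W) ^ (-3/d) κ(W)`, `κ` rational with poles at `0` and the roots of `γ` (count of zeros); so
  there is a linear functional on the twisted one-forms on the `W`-line which vanishes on the exact
  forms and not on this one;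
* `gpsi`, `Gn`, `Gn_G`, `Gn_exact`: it defines integrals of `L ^ i g ^ (-3/d - K)` over the line
  `x₀ = t`, `x₁ = 1`, which vanish on derivatives with respect to `L`;
* `HasPD`, `Gn_deriv`, `zL_poly`, `zL_deriv`, `iso_eq`: their derivatives with respect to `t`; this
  gives a differential equation of the first order with a solution `κ / (h r a b l) ^ M`, `κ` a
  polynomial;
* `LogF`, `ord_ode`: the order of the solution at each root of `h r a b l`; `ode_count_gen`: the sum
  of these orders would be greater than the degree of `κ`. (So the integral of `g ^ (-3/d) Ω` over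
  the lines through `(0 : 0 : 1)` is a form `∏ (t - t_i) ^ e_i dt` which is not exact.) -/

namespace Pool.Agent.Results.MP_b91a16_ag.PencilLocal

open MvPolynomial Pool.Agent.W574.CN Pool.Agent.W574.MO Pool.Agent.W574.HS Pool.Agent.W574.SM
  Pool.Agent.H628R4.TP Pool.Agent.Helper748.MC

/-- Let `f_j` be forms of the same degree `d` in three variables, such that some linear combination `g
= ∑ lam_j f_j` satisfies `PencilForm d g`. Let `b` be a polynomial which satisfies a functional
equation `b(s) F ^ s = P(s) F ^ (s + 1)` (in particular the Bernstein-Sato polynomial of `F = ∑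
y_j f_j`), or such an equation with formal power series coefficients (in particular the local
Bernstein-Sato polynomial at the origin). Let `Z ∈ M⟦T⟧` be the local motivic zeta function of `F`
at the origin, or at a point `(P, 0)` with `P ≠ 0`. Then `Z` lies in the ring `M[T][(1 - L⁻ⁿ
Tᵃ)⁻¹]`, where the pairs `a, n ≥ 1` are such that `-n/a` is a root of `b`. -/
theorem result {M : Type} [CommRing M] (L : Mˣ) {ι : Type} [Fintype ι]
    (f : ι → MvPolynomial (Fin 3) ℂ) (d : ℕ) (hf : ∀ j, (f j).IsHomogeneous d)
    (lam : ι → ℂ) (h : PencilForm d (lcomb f lam))
    (b : Polynomial ℂ) (hb : IsBFunction (univ f) b ∨ IsLocalBFunction (univ f) b)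
    (Z : PowerSeries M)
    (hZ : ConeJetLocalMot L f d Z ∨
      ∃ (i : Fin 3) (Q : Fin 2 → ℂ), JetFormMot L (fun j => deh i (f j)) Q Z) :
    Z ∈ DenRing L (RootPair b) := by
  classical
  have hne := exists_ne_of_lcomb (not_exact_pencil (lcomb_homog hf lam) h).1
  have hb' : IsBFunction (univ f) b := by
    rcases hb with hb | hb
    · exact hb
    · exact bfun_of_local f d hf hne b hb
  rcases hZ with hZ | ⟨i, Q, hZ⟩
  · exact cone_jet_local L f d hf hne b hb' (pen_form f d hf lam h b hb') Z hZ
  · exact cone_jet_point L f d hf hne b hb' i Q Z hZ

end Pool.Agent.Results.MP_b91a16_ag.PencilLocal
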